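import Mathlib
import Pool.Agent.H.MP_8eb3db_al.D

namespace Pool.Agent.Results.MP_8eb3db_al.Cogrowth

theorem result : ∃ (m : ℕ) (H : Subgroup (FreeGroup (Fin m))), 1 ≤ m ∧ ¬ H.FG ∧
    ∃ P Q : Polynomial ℚ, Q ≠ 0 ∧
      (Q : PowerSeries ℚ) *
        PowerSeries.mk (fun n => (({g : FreeGroup (Fin m) | g ∈ H ∧ g.norm = n}.ncard : ℕ) : ℚ)) =
      (P : PowerSeries ℚ) := by
  open Pool.Agent.H.MP_8eb3db_al in
  obtain ⟨h1, h2⟩ := main
  let e : Al ≃ Fin (704 + 3) := finSumFinEquiv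
  let φ : FreeGroup Al ≃* FreeGroup (Fin (704 + 3)) := FreeGroup.freeGroupCongr e
  have hn : ∀ g, (φ g).norm = g.norm := by
    intro g
    have a : ∀ {α β : Type} [DecidableEq α] [DecidableEq β] (f : α → β) (g : FreeGroup α),
        (FreeGroup.map f g).norm ≤ g.norm := by
      intro α β _ _ f g
      conv_lhs => rw [← FreeGroup.mk_toWord (x := g), FreeGroup.map.mk]
      refine FreeGroup.norm_mk_le.trans ?_
      rw [List.length_map]
      rfl
    refine le_antisymm (a _ _) ?_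
    conv_lhs => rw [← φ.symm_apply_apply g]
    exact a _ _
  refine ⟨704 + 3, (HH s0).map φ.toMonoidHom, by norm_num, fun h => h1 ?_,
    1 - 2 * Polynomial.X - 8 * Polynomial.X ^ 3,
    1 - 2 * Polynomial.X - 8 * Polynomial.X ^ 3 - 2 * Polynomial.X ^ 5 * (1 - 2 * Polynomial.X),
    fun h => ?_, ?_⟩
  · rw [Subgroup.fg_iff_submonoid_fg] at h ⊢
    exact Submonoid.FG.map_injective φ.toMonoidHom φ.injective h
  · have := congrArg (Polynomial.eval 0) h
    simp at this
  · have e2 : PowerSeries.mk (fun n => (({g : FreeGroup (Fin (704 + 3)) |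
        g ∈ (HH s0).map φ.toMonoidHom ∧ g.norm = n}.ncard : ℕ) : ℚ)) =
        Gam (HH s0 : Set (FreeGroup Al)) := by
      ext n
      rw [Gam, PowerSeries.coeff_mk, PowerSeries.coeff_mk,
        ← Set.ncard_image_of_injective _ φ.injective]
      congr 2
      ext g
      constructor
      · rintro ⟨⟨k, hk, rfl⟩, h⟩
        exact ⟨k, ⟨hk, (hn k).symm.trans h⟩, rfl⟩
      · rintro ⟨k, ⟨hk, h⟩, rfl⟩
        exact ⟨⟨k, hk, rfl⟩, (hn k).trans h⟩
    rw [e2]
    have c2 : ((2 : Polynomial ℚ) : PowerSeries ℚ) = 2 :=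
      map_ofNat (Polynomial.coeToPowerSeries.ringHom (R := ℚ)) 2
    have c8 : ((8 : Polynomial ℚ) : PowerSeries ℚ) = 8 :=
      map_ofNat (Polynomial.coeToPowerSeries.ringHom (R := ℚ)) 8
    simp only [Polynomial.coe_sub, Polynomial.coe_mul, Polynomial.coe_pow, Polynomial.coe_X,
      Polynomial.coe_one, c2, c8]
    exact h2

end Pool.Agent.Results.MP_8eb3db_al.Cogrowth
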